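import Pool.Agent.Helper39.Uct.Goals4
import Pool.Agent.Helper31.Uct.GL

/-!
# GLP: characteristic finite or torsion-free abelian subgroups of a virtually polycyclic subgroup

Helper31's proof of GL for a virtually polycyclic subgroup `D` of an arbitrary group.
-/

namespace Pool.Agent.Helper75.Uct3

open Pool.Agent.Helper39.Uct Subgroup

/-- The packet GLP. -/
theorem glp : S_GLP := by
  intro Q _ D hQ hD
  obtain ⟨hfg, S, hS, hsol⟩ := hQ
  have hne : (⊤ : Subgroup D) ≠ ⊥ := by
    intro h
    apply hD
    rw [Subgroup.eq_bot_iff_forall]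
    intro x hx
    have : (⟨x, hx⟩ : D) ∈ (⊤ : Subgroup D) := trivial
    rw [h, Subgroup.mem_bot] at this
    exact congrArg Subtype.val this
  obtain ⟨K, hKc, hKne, hK⟩ := Pool.Agent.Helper31.Uct.exists_char hfg S hS hsol hne
  refine ⟨K.map D.subtype, Subgroup.map_subtype_le _, ?_, ?_, ?_⟩
  · intro h
    exact hKne ((Subgroup.map_eq_bot_iff_of_injective _ D.subtype_injective).1 h)
  · intro q hq x
    -- conjugation by q as an automorphism of D
    let φ : D ≃* D :=
      { toFun := fun x => ⟨q * x * q⁻¹, (hq x).1 x.2⟩
        invFun := fun x => ⟨q⁻¹ * x * q, by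
          have := (hq (q⁻¹ * x * q)).2 (by
            have : q * (q⁻¹ * x * q) * q⁻¹ = (x : Q) := by group
            rw [this]; exact x.2)
          exact this⟩
        left_inv := fun x => Subtype.ext (by simp [mul_assoc])
        right_inv := fun x => Subtype.ext (by simp [mul_assoc])
        map_mul' := fun x y => Subtype.ext (by simp [mul_assoc]) }
    have hφ : ∀ y : D, y ∈ K ↔ φ y ∈ K := by
      intro y
      have h1 := hKc.fixed φ
      constructor
      · intro hy
        rw [← h1] at hy
        exact hy
      · intro hy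
        rw [← h1]
        exact hy
    constructor
    · rintro ⟨y, hy, rfl⟩
      exact ⟨φ y, (hφ y).1 hy, rfl⟩
    · rintro ⟨y, hy, hyx⟩
      have hyx' : (y : Q) = q * x * q⁻¹ := hyx
      have hxD : x ∈ D := by
        rw [hq x, ← hyx']
        exact y.2
      refine ⟨⟨x, hxD⟩, ?_, rfl⟩
      have : φ ⟨x, hxD⟩ = y := Subtype.ext hyx'.symm
      exact (hφ _).2 (this ▸ hy)
  · rcases hK with hK | ⟨h1, h2⟩
    · left
      exact Finite.of_equiv _ (K.equivMapOfInjective D.subtype D.subtype_injective).toEquiv
    · right
      constructor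
      · rintro _ ⟨x, hx, rfl⟩ _ ⟨y, hy, rfl⟩
        exact congrArg Subtype.val (h1 x hx y hy)
      · rintro _ ⟨x, hx, rfl⟩ n hn hxn
        have : x ^ n = 1 := by
          apply Subtype.ext
          simpa using hxn
        have := h2 x hx n hn this
        rw [this]
        rfl

end Pool.Agent.Helper75.Uct3
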